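import Pool.Agent.H74.OLP.Targets2

/-!
# MP_781dd6_co, row NBE: the edges next to an edge
-/

set_option autoImplicit false

open scoped Classical
open Finset Pool.Agent.H74.OLP

namespace Pool.Agent.H80.OLP

theorem vx0 {V E F : Type} {M : CMap V E F} (hM : M.OK) {e₀ A B : E} {v : V} {x y z : F}
    (hA : e₀ ≠ A) (hAB : A ≠ B) (hB : e₀ ≠ B) (hxy : x ≠ y) (hyz : y ≠ z) (hxz : x ≠ z)
    (hv : ∀ e, M.OnV e v ↔ (e = e₀ ∨ e = A ∨ e = B))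
    (h0 : ∀ f, M.OnF e₀ f ↔ (f = x ∨ f = y)) (h1 : ∀ f, M.OnF A f ↔ (f = z ∨ f = x))
    (h2 : ∀ f, M.OnF B f ↔ (f = z ∨ f = y)) :
    ∃ (a b : E) (p : F), a ≠ b ∧ a ≠ e₀ ∧ b ≠ e₀ ∧
      (∀ e, M.OnV e v ↔ (e = e₀ ∨ e = a ∨ e = b)) ∧ p ≠ M.l e₀ ∧ p ≠ M.r e₀ ∧
      (∀ f, M.OnF a f ↔ (f = p ∨ f = M.l e₀)) ∧ (∀ f, M.OnF b f ↔ (f = p ∨ f = M.r e₀)) := by
  have hl : M.l e₀ = x ∨ M.l e₀ = y := (h0 _).mp (Or.inl rfl)
  have hr : M.r e₀ = x ∨ M.r e₀ = y := (h0 _).mp (Or.inr rfl)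
  have hne := hM.lr e₀
  rcases hl with hl | hl
  · rcases hr with hr | hr
    · exact absurd (hl.trans hr.symm) hne
    · refine ⟨A, B, z, hAB, hA.symm, hB.symm, hv, ?_, ?_, ?_, ?_⟩
      · rw [hl]; exact hxz.symm
      · rw [hr]; exact hyz.symm
      · rw [hl]; exact h1
      · rw [hr]; exact h2
  · rcases hr with hr | hr
    · refine ⟨B, A, z, hAB.symm, hB.symm, hA.symm, ?_, ?_, ?_, ?_, ?_⟩
      · intro e
        rw [hv e]
        tauto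
      · rw [hl]; exact hyz.symm
      · rw [hr]; exact hxz.symm
      · rw [hl]; exact h2
      · rw [hr]; exact h1
    · exact absurd (hl.trans hr.symm) hne

theorem vx {V E F : Type} {M : CMap V E F} (hM : M.OK) (e₀ : E) (v : V) (h : M.OnV e₀ v) :
    ∃ (a b : E) (p : F), a ≠ b ∧ a ≠ e₀ ∧ b ≠ e₀ ∧
      (∀ e, M.OnV e v ↔ (e = e₀ ∨ e = a ∨ e = b)) ∧ p ≠ M.l e₀ ∧ p ≠ M.r e₀ ∧
      (∀ f, M.OnF a f ↔ (f = p ∨ f = M.l e₀)) ∧ (∀ f, M.OnF b f ↔ (f = p ∨ f = M.r e₀)) := by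
  obtain ⟨A, B, C, X, Y, Z, hAB, hBC, hAC, hXY, hYZ, hXZ, hv, hA, hB, hC⟩ := hM.tri v
  rcases (hv e₀).mp h with rfl | rfl | rfl
  · exact vx0 hM (x := Y) (y := Z) (z := X) (A := C) (B := B) hAC hBC.symm hAB hYZ hXZ.symm
      hXY.symm (fun e => by rw [hv e]; tauto) hA (fun f => hC f) (fun f => by rw [hB f]; tauto)
  · exact vx0 hM (x := Z) (y := X) (z := Y) (A := A) (B := C) hAB.symm hAC hBC hXZ.symm hXY
      hYZ.symm (fun e => by rw [hv e]; tauto) hB (fun f => hA f) (fun f => by rw [hC f]; tauto)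
  · exact vx0 hM (x := X) (y := Y) (z := Z) (A := B) (B := A) hBC.symm hAB.symm hAC.symm hXY hYZ
      hXZ (fun e => by rw [hv e]; tauto) hC (fun f => hB f) (fun f => by rw [hA f]; tauto)

theorem pf_NBE : T_NBE := by
  intro V E F _ _ _ M hM hP e₀
  obtain ⟨a, b, p, hab, ha, hb, hu, hp1, hp2, hfa, hfb⟩ := vx hM e₀ (M.s e₀) (Or.inl rfl)
  obtain ⟨c, d, q, hcd, hc, hd, hv, hq1, hq2, hfc, hfd⟩ := vx hM e₀ (M.t e₀) (Or.inr rfl)
  have key : ∀ e, M.OnV e (M.s e₀) → M.OnV e (M.t e₀) → e = e₀ := by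
    intro e h1 h2
    have hst := hM.st e₀
    apply hP
    rcases h1 with h1 | h1 <;> rcases h2 with h2 | h2
    · exact absurd (h1.symm.trans h2) hst
    · rw [h1, h2]
    · rw [h1, h2]
      exact Sym2.eq_swap
    · exact absurd (h1.symm.trans h2) hst
  have hau : M.OnV a (M.s e₀) := (hu a).mpr (Or.inr (Or.inl rfl))
  have hbu : M.OnV b (M.s e₀) := (hu b).mpr (Or.inr (Or.inr rfl))
  have hcv : M.OnV c (M.t e₀) := (hv c).mpr (Or.inr (Or.inl rfl))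
  have hdv : M.OnV d (M.t e₀) := (hv d).mpr (Or.inr (Or.inr rfl))
  refine ⟨a, b, c, d, p, q, hab, ?_, ?_, ?_, ?_, hcd, ?_, hp1, hp2, hq1, hq2, hfa, hfb, hfc,
    hfd⟩
  · rintro rfl
    exact ha (key _ hau hcv)
  · rintro rfl
    exact ha (key _ hau hdv)
  · rintro rfl
    exact hb (key _ hbu hcv)
  · rintro rfl
    exact hb (key _ hbu hdv)
  · intro e
    rw [hu e, hv e]
    constructor
    · rintro ⟨h1, h2⟩
      tauto
    · rintro (rfl | rfl | rfl | rfl)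
      · exact ⟨ha, by tauto⟩
      · exact ⟨hb, by tauto⟩
      · exact ⟨hc, by tauto⟩
      · exact ⟨hd, by tauto⟩

end Pool.Agent.H80.OLP
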